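import Pool.Agent.N516.SC.Stm

/-!
# The Petersen graph is cubic, has no circuits of length 3 or 4 and no small cuts
-/

set_option autoImplicit false

namespace Pool.Agent.N971.SC.PN

open Pool.Agent.N516.SC

/-- the adjacency matrix of the Petersen graph, by rows in binary -/
def row : Fin 10 → ℕ := ![50, 69, 138, 276, 521, 385, 770, 548, 104, 208]

/-- adjacency in the Petersen graph -/
def ad (a b : Fin 10) : Bool := Nat.testBit (row a) b.val

theorem adj_iff (a b : Fin 10) : pet.Adj a b ↔ ad a b = true := by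
  rw [pet, SimpleGraph.fromRel_adj]
  revert a b
  decide +kernel

theorem cubic : IsCubic pet := by
  intro v
  have e : pet.neighborSet v = ((Finset.univ.filter fun w => ad v w = true : Finset (Fin 10)) :
      Set (Fin 10)) := by
    ext w
    rw [SimpleGraph.mem_neighborSet, adj_iff, Finset.coe_filter]
    simp
  rw [e, Set.ncard_coe_finset]
  clear e
  revert v
  decide +kernel

theorem c3 : NoC3 pet := by
  have h : ∀ a b c : Fin 10, (ad a b && ad b c && ad a c) = false := by decide +kernel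
  intro a b c h1 h2 h3
  have := h a b c
  rw [adj_iff] at h1 h2 h3
  simp [h1, h2, h3] at this

theorem c4 : NoC4 pet := by
  have h : ∀ a b : Fin 10, ad a b = true → ∀ c : Fin 10, ad b c = true → a ≠ c →
      ∀ d : Fin 10, ad c d = true → ad d a = true → b = d := by decide +kernel
  intro a b c d h1 h2 h3 h4 h5 h6
  rw [adj_iff] at h3 h4 h5 h6
  exact h2 (h a b h3 c h4 h1 d h5 h6)

/-- the number of the edges with different values -/
def nc (f : Fin 10 → Bool) : ℕ := ∑ v, ∑ w, if (f v && !f w && ad v w) then 1 else 0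

theorem cut_eq (f : Fin 10 → Bool) : cut pet f = nc f := by
  classical
  unfold cut nc
  refine Finset.sum_congr rfl fun v _ => Finset.sum_congr rfl fun w _ => ?_
  refine if_congr ?_ rfl rfl
  rw [adj_iff]
  simp [and_assoc]

/-- the number of the true values -/
def nt (f : Fin 10 → Bool) : ℕ := ∑ v, if f v then 1 else 0

theorem key : ∀ b0 b1 b2 b3 b4 b5 b6 b7 b8 b9 : Bool,
    (Nat.ble 2 (nt ![b0, b1, b2, b3, b4, b5, b6, b7, b8, b9]) &&
      Nat.ble (nt ![b0, b1, b2, b3, b4, b5, b6, b7, b8, b9]) 8) = true →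
    Nat.ble 4 (nc ![b0, b1, b2, b3, b4, b5, b6, b7, b8, b9]) = true := by
  decide +kernel

theorem vec (f : Fin 10 → Bool) :
    ![f 0, f 1, f 2, f 3, f 4, f 5, f 6, f 7, f 8, f 9] = f := by
  funext i
  fin_cases i <;> rfl

theorem two_le {f : Fin 10 → Bool} (h : ∃ a b, a ≠ b ∧ f a = true ∧ f b = true) : 2 ≤ nt f := by
  obtain ⟨a, b, h1, h2, h3⟩ := h
  unfold nt
  rw [← Finset.card_filter]
  refine Finset.one_lt_card.2 ⟨a, ?_, b, ?_, h1⟩ <;> simp [h2, h3]

theorem le_eight {f : Fin 10 → Bool} (h : ∃ a b, a ≠ b ∧ f a = false ∧ f b = false) :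
    nt f ≤ 8 := by
  obtain ⟨a, b, h1, h2, h3⟩ := h
  unfold nt
  rw [← Finset.card_filter]
  have h4 : (Finset.univ.filter fun v => f v = true) ⊆ (Finset.univ \ {a, b} : Finset (Fin 10)) := by
    intro v hv
    rw [Finset.mem_filter] at hv
    rw [Finset.mem_sdiff]
    refine ⟨Finset.mem_univ _, fun h5 => ?_⟩
    rcases Finset.mem_insert.1 h5 with rfl | h6
    · rw [h2] at hv
      exact absurd hv.2 (by simp)
    · rw [Finset.mem_singleton.1 h6, h3] at hv
      exact absurd hv.2 (by simp)
  refine (Finset.card_le_card h4).trans ?_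
  rw [Finset.card_sdiff_of_subset (Finset.subset_univ _), Finset.card_pair h1]
  simp

theorem cut4 : Cut4 pet := by
  intro f h1 h2
  have h := key (f 0) (f 1) (f 2) (f 3) (f 4) (f 5) (f 6) (f 7) (f 8) (f 9)
  rw [vec f] at h
  rw [cut_eq]
  refine Nat.le_of_ble_eq_true (h ?_)
  rw [Bool.and_eq_true]
  exact ⟨Nat.ble_eq_true_of_le (two_le h1), Nat.ble_eq_true_of_le (le_eight h2)⟩

/-- **PN** -/
theorem t_PN : Pool.Agent.N516.SC.S_PN := ⟨cubic, c3, c4, cut4⟩

end Pool.Agent.N971.SC.PN
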